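import Pool.Agent.Q199.RS.Main

set_option autoImplicit false

namespace Pool.Agent.Results.MP_88a444_an.CompactRangeStronglyExposing

open Pool.Agent.Q199.RS
open scoped ENNReal

universe u v

/-- Let `X` be a Banach space whose dual is isometrically isomorphic to `ℓ₁` and let `Y` be a
Banach space over the same field. If the space of compact operators from `X` to `Y` has the
BPBp-RSE, then `Y` is uniformly convex in the real case and `ℂ`-uniformly convex in the complex
case. -/
theorem result :
    (∀ (X : Type u) (Y : Type v) [NormedAddCommGroup X] [NormedSpace ℝ X] [CompleteSpace X]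
      [NormedAddCommGroup Y] [NormedSpace ℝ Y] [CompleteSpace Y],
      Nonempty (StrongDual ℝ X ≃ₗᵢ[ℝ] lp (fun _ : ℕ => ℝ) 1) →
      CompactBPBpRSE ℝ X Y → UniformlyConvex Y) ∧
    (∀ (X : Type u) (Y : Type v) [NormedAddCommGroup X] [NormedSpace ℂ X] [CompleteSpace X]
      [NormedAddCommGroup Y] [NormedSpace ℂ Y] [CompleteSpace Y],
      Nonempty (StrongDual ℂ X ≃ₗᵢ[ℂ] lp (fun _ : ℕ => ℂ) 1) →
      CompactBPBpRSE ℂ X Y → ComplexUniformlyConvex Y) := by
  constructor
  · intro X Y _ _ _ _ _ _ ⟨e⟩ hB
    haveI := nontrivial_of_equiv e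
    exact real_case e hB
  · intro X Y _ _ _ _ _ _ ⟨e⟩ hB
    haveI := nontrivial_of_equiv e
    exact fun ε hε => main e hB ε hε

end Pool.Agent.Results.MP_88a444_an.CompactRangeStronglyExposing
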